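import Mathlib

set_option autoImplicit false

open Filter Topology

namespace Pool.Agent.H524Z.Antitree

/-- A solution of a three term recurrence with coefficients close to `h ∈ [0, 3/2]` that tends to
zero vanishes. -/
theorem rec_zero (p : ℕ → ℝ) (k : ℕ → ℝ) (h : ℝ) (h0 : 0 ≤ h) (h1 : h ≤ 3 / 2)
    (hk : ∀ n, |k n - h| ≤ (1 / 48) * (1 / 2) ^ n)
    (hrec : ∀ n, p (n + 2) + p n = k n * p (n + 1))
    (hlim : Tendsto p atTop (𝓝 0)) : ∀ n, p n = 0 := by
  set Q : ℕ → ℝ := fun n => p (n + 1) ^ 2 + p n ^ 2 - h * (p (n + 1) * p n) with hQ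
  have hQl : ∀ n, (p (n + 1) ^ 2 + p n ^ 2) / 4 ≤ Q n := by
    intro n
    simp only [hQ]
    have e1 : 0 ≤ (p (n + 1) - p n) ^ 2 := sq_nonneg _
    have e2 : 0 ≤ (p (n + 1) + p n) ^ 2 := sq_nonneg _
    by_cases hs : 0 ≤ p (n + 1) * p n
    · have : h * (p (n + 1) * p n) ≤ 3 / 2 * (p (n + 1) * p n) :=
        mul_le_mul_of_nonneg_right h1 hs
      nlinarith
    · push Not at hs
      have : h * (p (n + 1) * p n) ≤ 0 := mul_nonpos_of_nonneg_of_nonpos h0 hs.le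
      nlinarith [sq_nonneg (p (n + 1)), sq_nonneg (p n)]
  have hQ0 : ∀ n, 0 ≤ Q n := fun n => le_trans (by positivity) (hQl n)
  have hstep : ∀ n, Q n * (1 - (1 / 4) * (1 / 2) ^ n) ≤ Q (n + 1) := by
    intro n
    have hp : p (n + 2) = k n * p (n + 1) - p n := by linarith [hrec n]
    have ht : (0 : ℝ) < (1 / 2) ^ n := by positivity
    have ht1 : ((1 : ℝ) / 2) ^ n ≤ 1 := pow_le_one₀ (by norm_num) (by norm_num)
    have hkn := hk n
    have hk2 : |k n| ≤ 2 := by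
      rw [abs_le] at hkn ⊢
      constructor <;> nlinarith
    have hd : Q (n + 1) - Q n = (k n - h) * ((k n * p (n + 1) - 2 * p n) * p (n + 1)) := by
      simp only [hQ]
      rw [show n + 1 + 1 = n + 2 from rfl, hp]
      ring
    have hb : |(k n * p (n + 1) - 2 * p n) * p (n + 1)| ≤ 3 * (p (n + 1) ^ 2 + p n ^ 2) := by
      rw [abs_le] at hk2 ⊢
      have e1 : 0 ≤ (p (n + 1) - p n) ^ 2 := sq_nonneg _
      have e2 : 0 ≤ (p (n + 1) + p n) ^ 2 := sq_nonneg _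
      have e3 : 0 ≤ p (n + 1) ^ 2 := sq_nonneg _
      have e4 : 0 ≤ p n ^ 2 := sq_nonneg _
      have e5 : 0 ≤ (2 - k n) * p (n + 1) ^ 2 := mul_nonneg (by linarith) e3
      have e6 : 0 ≤ (2 + k n) * p (n + 1) ^ 2 := mul_nonneg (by linarith) e3
      constructor <;> nlinarith
    have hb2 : |Q (n + 1) - Q n| ≤ (1 / 48) * (1 / 2) ^ n * (12 * Q n) := by
      rw [hd, abs_mul]
      apply mul_le_mul hkn _ (abs_nonneg _) (by positivity)
      linarith [hQl n]
    rw [abs_le] at hb2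
    nlinarith [hb2.1]
  have hind : ∀ n, Q 0 * ((1 + (1 / 2) ^ n) / 2) ≤ Q n := by
    intro n
    induction n with
    | zero => simp
    | succ n ih =>
      refine le_trans ?_ (hstep n)
      have ht : (0 : ℝ) < (1 / 2) ^ n := by positivity
      have ht1 : ((1 : ℝ) / 2) ^ n ≤ 1 := pow_le_one₀ (by norm_num) (by norm_num)
      have h3 : 0 ≤ 1 - (1 / 4) * ((1 : ℝ) / 2) ^ n := by linarith
      refine le_trans ?_ (mul_le_mul_of_nonneg_right ih h3)
      rw [mul_assoc]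
      apply mul_le_mul_of_nonneg_left _ (hQ0 0)
      rw [pow_succ]
      nlinarith
  have hQlim : Tendsto Q atTop (𝓝 0) := by
    have h2 : Tendsto (fun n => p (n + 1)) atTop (𝓝 0) := hlim.comp (tendsto_add_atTop_nat 1)
    have := ((h2.pow 2).add (hlim.pow 2)).sub ((h2.mul hlim).const_mul h)
    simpa [hQ] using this
  have hz : Q 0 / 2 ≤ 0 := by
    apply ge_of_tendsto' hQlim
    intro n
    refine le_trans ?_ (hind n)
    have ht : (0 : ℝ) < (1 / 2) ^ n := by positivity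
    nlinarith [hQ0 0]
  have h3 := hQl 0
  have hp0 : p 0 = 0 := by nlinarith [sq_nonneg (p 0), sq_nonneg (p (0 + 1))]
  have hp1 : p 1 = 0 := by
    have : p (0 + 1) = 0 := by nlinarith [sq_nonneg (p 0), sq_nonneg (p (0 + 1))]
    simpa using this
  have : ∀ n, p n = 0 ∧ p (n + 1) = 0 := by
    intro n
    induction n with
    | zero => exact ⟨hp0, hp1⟩
    | succ n ih =>
      refine ⟨ih.2, ?_⟩
      have := hrec n
      rw [ih.1, ih.2] at this
      simpa using this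
  exact fun n => (this n).1

theorem rec_zero_complex (p : ℕ → ℂ) (k : ℕ → ℝ) (h : ℝ) (h0 : 0 ≤ h) (h1 : h ≤ 3 / 2)
    (hk : ∀ n, |k n - h| ≤ (1 / 48) * (1 / 2) ^ n)
    (hrec : ∀ n, p (n + 2) + p n = (k n : ℂ) * p (n + 1))
    (hlim : Tendsto p atTop (𝓝 0)) : ∀ n, p n = 0 := by
  intro n
  apply Complex.ext
  · refine rec_zero (fun n => (p n).re) k h h0 h1 hk (fun n => ?_) ?_ n
    · have := congrArg Complex.re (hrec n)
      simpa using this
    · simpa [Function.comp_def] using (Complex.continuous_re.tendsto 0).comp hlim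
  · refine rec_zero (fun n => (p n).im) k h h0 h1 hk (fun n => ?_) ?_ n
    · have := congrArg Complex.im (hrec n)
      simpa using this
    · simpa [Function.comp_def] using (Complex.continuous_im.tendsto 0).comp hlim

/-- The averaged resolvent coefficient. -/
theorem coef_bound (E lam m1 m2 t : ℝ) (hE1 : 1 / 4 ≤ E) (hE2 : E ≤ 1 / 2) (hl : 1 ≤ lam)
    (ht0 : 0 ≤ t) (ht1 : t ≤ 1) (hm1 : |m1| ≤ t / 1000) (hm2 : |m2 - 1 / 2| ≤ t / 1000) :
    let g := 1 / E + lam / (E ^ 2 - lam ^ 2) * m1 + (E / (E ^ 2 - lam ^ 2) - 1 / E) * m2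
    let g₀ := 1 / E + (E / (E ^ 2 - lam ^ 2) - 1 / E) * (1 / 2)
    g ≠ 0 ∧ 0 ≤ g₀⁻¹ ∧ g₀⁻¹ ≤ 3 / 2 ∧ |g⁻¹ - g₀⁻¹| ≤ (1 / 24) * t := by
  intro g g₀
  have hD : 3 / 4 * lam ≤ lam ^ 2 - E ^ 2 := by nlinarith
  have hD0 : 0 < lam ^ 2 - E ^ 2 := by nlinarith
  have hE0 : 0 < E := by linarith
  have hA1 : 2 ≤ 1 / E := by rw [le_div_iff₀ hE0]; linarith
  have hA2 : 1 / E ≤ 4 := by rw [div_le_iff₀ hE0]; linarith
  have hB : |lam / (E ^ 2 - lam ^ 2)| ≤ 4 / 3 := by
    rw [abs_div, abs_of_pos (by linarith : 0 < lam), abs_of_neg (by linarith), div_le_iff₀ (by linarith)]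
    linarith
  have hC1 : -(2 / 3) ≤ E / (E ^ 2 - lam ^ 2) := by
    rw [le_div_iff_of_neg (by linarith)]
    nlinarith
  have hC2 : E / (E ^ 2 - lam ^ 2) ≤ 0 := div_nonpos_of_nonneg_of_nonpos hE0.le (by linarith)
  have hC : |E / (E ^ 2 - lam ^ 2) - 1 / E| ≤ 14 / 3 := by
    rw [abs_le]; constructor <;> linarith
  have hg₀ : 2 / 3 ≤ g₀ := by simp only [g₀]; linarith
  have hdiff : |g - g₀| ≤ 6 * (t / 1000) := by
    have : g - g₀ = lam / (E ^ 2 - lam ^ 2) * m1 + (E / (E ^ 2 - lam ^ 2) - 1 / E) * (m2 - 1 / 2) := by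
      simp only [g, g₀]; ring
    rw [this]
    refine le_trans (abs_add_le _ _) ?_
    rw [abs_mul, abs_mul]
    have e1 := mul_le_mul hB hm1 (abs_nonneg _) (by norm_num)
    have e2 := mul_le_mul hC hm2 (abs_nonneg _) (by norm_num)
    linarith
  have hg : 3 / 5 ≤ g := by
    rw [abs_le] at hdiff; linarith [hdiff.1]
  refine ⟨by linarith [hg] , by positivity, ?_, ?_⟩
  · rw [inv_le_comm₀ (by linarith) (by norm_num)]; linarith
  · have : g⁻¹ - g₀⁻¹ = (g₀ - g) / (g * g₀) := by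
      field_simp
    rw [this, abs_div, abs_sub_comm, abs_of_pos (by positivity : 0 < g * g₀),
      div_le_iff₀ (by positivity)]
    have : 2 / 5 ≤ g * g₀ := by nlinarith
    nlinarith

theorem inv_quadratic (E lam v : ℝ) (hE1 : 1 / 4 ≤ E) (hE2 : E ≤ 1 / 2) (hl : 1 ≤ lam)
    (hv : v = 0 ∨ v = 1 ∨ v = -1) :
    E - lam * v ≠ 0 ∧ (E - lam * v)⁻¹ =
      1 / E + lam / (E ^ 2 - lam ^ 2) * v + (E / (E ^ 2 - lam ^ 2) - 1 / E) * v ^ 2 := by
  have h1 : E - lam ≠ 0 := by linarith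
  have h2 : E + lam ≠ 0 := by linarith
  have h3 : E ^ 2 - lam ^ 2 ≠ 0 := by
    have : E ^ 2 - lam ^ 2 = (E - lam) * (E + lam) := by ring
    rw [this]; exact mul_ne_zero h1 h2
  have h0 : E ≠ 0 := by linarith
  rcases hv with rfl | rfl | rfl
  · simp [h0]
  · refine ⟨by simpa using h1, ?_⟩
    have : E - lam * 1 ≠ 0 := by simpa using h1
    field_simp
    ring
  · have : E - lam * -1 ≠ 0 := by simpa using h2
    refine ⟨this, ?_⟩
    rw [show E - lam * -1 = E + lam by ring]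
    field_simp
    ring

end Pool.Agent.H524Z.Antitree
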