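import Pool.Agent.H524Z.Antitree.Defs

set_option autoImplicit false

open scoped InnerProductSpace

namespace Pool.Agent.H524Z.Antitree

variable {E : Type} [NormedAddCommGroup E] [InnerProductSpace ℂ E] [CompleteSpace E]

theorem orth_of_mem (H : E →L[ℂ] E) (hH : IsSelfAdjoint H) {a b : ℝ} (hab : a ≤ b) {ψ : E}
    (hψ : ψ ∈ spectralRange H a b) {u : E} {e : ℝ} (he : e ∉ Set.Icc a b)
    (hu : H u = (e : ℂ) • u) : ⟪u, ψ⟫_ℂ = 0 := by
  set φ : ℝ → ℝ := fun t => (max a (min b t) - e)⁻¹ with hφ
  have hne : ∀ t, max a (min b t) - e ≠ 0 := by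
    intro t h
    apply he
    have h1 : e = max a (min b t) := by linarith
    rw [h1]
    exact ⟨le_max_left _ _, max_le hab (min_le_left _ _)⟩
  have hφc : Continuous φ := by
    apply Continuous.inv₀ _ hne
    fun_prop
  have h0 := hψ (fun t => 1 - (t - e) * φ t) (by fun_prop) (by
    intro t ht
    have : max a (min b t) = t := by
      rw [min_eq_right ht.2, max_eq_right ht.1]
    have h2 := hne t
    simp only [hφ]
    rw [this] at h2 ⊢
    field_simp
    ring)
  rw [cfc_sub (fun _ => (1 : ℝ)) (fun t => (t - e) * φ t) H, cfc_const_one ℝ H,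
    cfc_mul (fun t : ℝ => t - e) φ H, cfc_sub (fun t : ℝ => t) (fun _ => e) H, cfc_id' ℝ H,
    cfc_const e H] at h0
  set w := (cfc φ H : E →L[ℂ] E) ψ with hw
  have h1 : ψ = H w - (e : ℂ) • w := by
    have : ψ - (H w - (e : ℂ) • w) = 0 := by
      simpa [Algebra.algebraMap_eq_smul_one, hw] using h0
    exact sub_eq_zero.mp this
  rw [h1, inner_sub_right, inner_smul_right]
  have h2 : ⟪u, H w⟫_ℂ = ⟪H u, w⟫_ℂ := (hH.isSymmetric u w).symm
  rw [h2, hu, inner_smul_left]
  simp

/-- If there is no eigenvalue in `[a, b]` and an interior point of `[a, b]` is in the spectrum,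
then the spectrum is not pure point in `[a, b]`. -/
theorem not_purePoint (H : E →L[ℂ] E) (hH : IsSelfAdjoint H) {a b e₀ : ℝ} (h1 : a < e₀)
    (h2 : e₀ < b) (hsp : e₀ ∈ spectrum ℝ H)
    (hno : ∀ e ∈ Set.Icc a b, ∀ u : E, H u = (e : ℂ) • u → u = 0) : ¬ PurePointIn H a b := by
  intro hpp
  have hab : a ≤ b := by linarith
  set f₀ : ℝ → ℝ := fun t => max 0 ((t - a) * (b - t)) with hf₀
  have hc : Continuous f₀ := by fun_prop
  have hne : (cfc f₀ H : E →L[ℂ] E) ≠ 0 := by
    intro h
    rw [← cfc_zero ℝ H, cfc_eq_cfc_iff_eqOn] at h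
    have := h hsp
    simp only [hf₀, Pi.zero_apply] at this
    have h3 : 0 < (e₀ - a) * (b - e₀) := mul_pos (by linarith) (by linarith)
    rw [max_eq_right h3.le] at this
    linarith
  obtain ⟨φ, hφ⟩ : ∃ φ : E, (cfc f₀ H : E →L[ℂ] E) φ ≠ 0 := by
    by_contra h
    push Not at h
    exact hne (ContinuousLinearMap.ext h)
  set ψ := (cfc f₀ H : E →L[ℂ] E) φ with hψ
  have hmem : ψ ∈ spectralRange H a b := by
    intro f hf hf0
    have h3 : (cfc f H : E →L[ℂ] E) * cfc f₀ H = 0 := by
      rw [← cfc_mul f f₀ H, ← cfc_zero ℝ H]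
      congr 1
      funext t
      by_cases ht : t ∈ Set.Icc a b
      · simp [hf0 t ht]
      · have : (t - a) * (b - t) ≤ 0 := by
          rw [Set.mem_Icc, not_and_or] at ht
          rcases ht with ht | ht
          · push Not at ht
            exact mul_nonpos_of_nonpos_of_nonneg (by linarith) (by linarith)
          · push Not at ht
            exact mul_nonpos_of_nonneg_of_nonpos (by linarith) (by linarith)
        simp [hf₀, max_eq_left this]
    have := congrArg (fun T : E →L[ℂ] E => T φ) h3
    simpa [hψ] using this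
  have horth : ∀ u ∈ {u : E | ∃ z : ℂ, H u = z • u}, ⟪u, ψ⟫_ℂ = 0 := by
    rintro u ⟨z, hz⟩
    by_cases hu : u = 0
    · simp [hu]
    have hz' : (starRingEnd ℂ) z = z := by
      apply hH.isSymmetric.conj_eigenvalue_eq_self
      apply Module.End.hasEigenvalue_of_hasEigenvector (x := u)
      refine ⟨?_, hu⟩
      rw [Module.End.mem_eigenspace_iff]
      exact hz
    have hz2 : z = (z.re : ℂ) := (Complex.conj_eq_iff_re.mp hz').symm
    rw [hz2] at hz
    by_cases he : z.re ∈ Set.Icc a b
    · exact absurd (hno _ he u hz) hu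
    · exact orth_of_mem H hH hab hmem he hz
  have hcl : closure (Submodule.span ℂ {u : E | ∃ z : ℂ, H u = z • u} : Set E) ⊆
      {u : E | ⟪u, ψ⟫_ℂ = 0} := by
    apply closure_minimal
    · intro u hu
      induction hu using Submodule.span_induction with
      | mem x hx => exact horth x hx
      | zero => simp
      | add x y _ _ hx hy =>
        simp only [Set.mem_setOf_eq] at hx hy ⊢
        rw [inner_add_left, hx, hy, add_zero]
      | smul c x _ hx =>
        simp only [Set.mem_setOf_eq] at hx ⊢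
        rw [inner_smul_left, hx, mul_zero]
    · exact isClosed_eq (by fun_prop) continuous_const
  have := hcl (hpp hmem)
  simp only [Set.mem_setOf_eq, inner_self_eq_zero] at this
  exact hφ this

end Pool.Agent.H524Z.Antitree
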