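import Pool.Agent.H524Z.Antitree.Op
import Pool.Agent.H524Z.Antitree.Rec
import Pool.Agent.H524Z.Antitree.Spec

set_option autoImplicit false

open Filter Topology

namespace Pool.Agent.H524Z.Antitree

variable {s : ℕ → ℕ}

/-- good potentials -/
def Good (s : ℕ → ℕ) (v : Vtx s → ℝ) : Prop :=
  (∀ x, v x = 0 ∨ v x = 1 ∨ v x = -1) ∧ ∀ n : ℕ,
    |(∑ i : Fin (s n), v ⟨n, i⟩) / s n| ≤ (1 / 2) ^ n / 1000 ∧
    |(∑ i : Fin (s n), v ⟨n, i⟩ ^ 2) / s n - 1 / 2| ≤ (1 / 2) ^ n / 1000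

theorem apply_zero {lam : ℝ} {v : Vtx s → ℝ} {H : L2 s →L[ℂ] L2 s} (hH : IsAnderson s lam v H)
    (u : L2 s) (i : Fin (s 0)) :
    H u ⟨0, i⟩ = Psi (s := s) u 1 / (√(s 0 : ℝ) : ℝ) + ((lam * v ⟨0, i⟩ : ℝ) : ℂ) * u ⟨0, i⟩ := by
  rw [hH, tsum_weight, (hasSum_down_zero _ i).tsum_eq, add_zero]

theorem apply_succ {lam : ℝ} {v : Vtx s → ℝ} {H : L2 s →L[ℂ] L2 s} (hH : IsAnderson s lam v H)
    (u : L2 s) (n : ℕ) (i : Fin (s (n + 1))) :
    H u ⟨n + 1, i⟩ = (Psi (s := s) u (n + 2) + Psi (s := s) u n) / (√(s (n + 1) : ℝ) : ℝ) +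
      ((lam * v ⟨n + 1, i⟩ : ℝ) : ℂ) * u ⟨n + 1, i⟩ := by
  rw [hH, tsum_weight, (hasSum_down_succ _ n i).tsum_eq, add_div]

theorem Psi_zero {lam : ℝ} {v : Vtx s → ℝ} {H : L2 s →L[ℂ] L2 s} (hH : IsAnderson s lam v H)
    (hs : ∀ n, 0 < s n) (hl : 1 ≤ lam) (hv : Good s v) {E : ℝ} (hE1 : 1 / 4 ≤ E) (hE2 : E ≤ 1 / 2)
    (u : L2 s) (hu : ∀ (n : ℕ) (i : Fin (s (n + 1))), H u ⟨n + 1, i⟩ = (E : ℂ) * u ⟨n + 1, i⟩) :
    ∀ n, Psi (s := s) u n = 0 := by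
  set g : ℕ → ℝ := fun n => 1 / E + lam / (E ^ 2 - lam ^ 2) * ((∑ i : Fin (s n), v ⟨n, i⟩) / s n)
    + (E / (E ^ 2 - lam ^ 2) - 1 / E) * ((∑ i : Fin (s n), v ⟨n, i⟩ ^ 2) / s n) with hg
  have hb := fun n : ℕ => coef_bound E lam _ _ ((1 / 2) ^ n) hE1 hE2 hl (by positivity)
    (pow_le_one₀ (by norm_num) (by norm_num)) (hv.2 n).1 (hv.2 n).2
  refine rec_zero_complex (Psi (s := s) u) (fun n => (g (n + 1))⁻¹) _ (hb 0).2.1 (hb 0).2.2.1
    (fun n => ?_) (fun n => ?_) (tendsto_Psi u)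
  · refine le_trans (hb (n + 1)).2.2.2 (le_of_eq ?_)
    rw [pow_succ]
    ring
  · have hg0 : g (n + 1) ≠ 0 := (hb (n + 1)).1
    have hsn : (s (n + 1) : ℝ) ≠ 0 := by exact_mod_cast (hs (n + 1)).ne'
    have hsq : (√(s (n + 1) : ℝ)) ≠ 0 := by
      rw [Real.sqrt_ne_zero (Nat.cast_nonneg _)]; exact hsn
    set c := Psi (s := s) u (n + 2) + Psi (s := s) u n with hc
    have h1 : ∀ i : Fin (s (n + 1)), u ⟨n + 1, i⟩ =
        c / (√(s (n + 1) : ℝ) : ℝ) * (((E - lam * v ⟨n + 1, i⟩)⁻¹ : ℝ) : ℂ) := by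
      intro i
      have h2 := apply_succ hH u n i
      rw [hu n i] at h2
      have h3 : ((E - lam * v ⟨n + 1, i⟩ : ℝ) : ℂ) ≠ 0 := by
        exact_mod_cast (inv_quadratic E lam _ hE1 hE2 hl (hv.1 ⟨n + 1, i⟩)).1
      rw [Complex.ofReal_inv, ← div_eq_mul_inv, eq_div_iff h3]
      push_cast at h2 ⊢
      linear_combination h2
    have h4 : ∑ i : Fin (s (n + 1)), (E - lam * v ⟨n + 1, i⟩)⁻¹ = s (n + 1) * g (n + 1) := by
      rw [Finset.sum_congr rfl fun i _ => (inv_quadratic E lam _ hE1 hE2 hl (hv.1 ⟨n + 1, i⟩)).2]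
      rw [Finset.sum_add_distrib, Finset.sum_add_distrib, ← Finset.mul_sum, ← Finset.mul_sum]
      simp only [Finset.sum_const, Finset.card_univ, Fintype.card_fin, nsmul_eq_mul, hg]
      field_simp
    have h5 : Psi (s := s) u (n + 1) = (g (n + 1) : ℂ) * c := by
      conv_lhs => unfold Psi
      rw [Finset.sum_congr rfl fun i _ => h1 i, ← Finset.mul_sum, ← Complex.ofReal_sum, h4]
      have h6 : ((√(s (n + 1) : ℝ) : ℝ) : ℂ) ≠ 0 := by exact_mod_cast hsq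
      have h7 : ((s (n + 1) : ℝ) : ℂ) = ((√(s (n + 1) : ℝ) : ℝ) : ℂ) ^ 2 := by
        rw [← Complex.ofReal_pow, Real.sq_sqrt (Nat.cast_nonneg _)]
      rw [Complex.ofReal_mul, h7]
      field_simp
    rw [h5, ← mul_assoc, ← Complex.ofReal_mul, inv_mul_cancel₀ hg0]
    simp

theorem no_eigen {lam : ℝ} {v : Vtx s → ℝ} {H : L2 s →L[ℂ] L2 s} (hH : IsAnderson s lam v H)
    (hs : ∀ n, 0 < s n) (hl : 1 ≤ lam) (hv : Good s v) {E : ℝ} (hE1 : 1 / 4 ≤ E) (hE2 : E ≤ 1 / 2)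
    (u : L2 s) (hu : H u = (E : ℂ) • u) : u = 0 := by
  have hu' : ∀ x, H u x = (E : ℂ) * u x := by
    intro x
    rw [hu, lp.coeFn_smul]
    rfl
  have hP := Psi_zero hH hs hl hv hE1 hE2 u (fun n i => hu' _)
  ext x
  have h3 : ((E - lam * v x : ℝ) : ℂ) ≠ 0 := by
    exact_mod_cast (inv_quadratic E lam _ hE1 hE2 hl (hv.1 x)).1
  have h4 : ((E - lam * v x : ℝ) : ℂ) * u x = 0 := by
    obtain ⟨n, i⟩ := x
    cases n with
    | zero =>
      have h2 := apply_zero hH u i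
      rw [hu', hP] at h2
      push_cast at h2 ⊢
      linear_combination h2
    | succ n =>
      have h2 := apply_succ hH u n i
      rw [hu', hP, hP] at h2
      push_cast at h2 ⊢
      linear_combination h2
  simpa using (mul_eq_zero.mp h4).resolve_left h3

theorem mem_spectrum {lam : ℝ} {v : Vtx s → ℝ} {H : L2 s →L[ℂ] L2 s} (hH : IsAnderson s lam v H)
    (hs : ∀ n, 0 < s n) (hl : 1 ≤ lam) (hv : Good s v) {E : ℝ} (hE1 : 1 / 4 ≤ E)
    (hE2 : E ≤ 1 / 2) : E ∈ spectrum ℝ H := by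
  classical
  rw [spectrum.mem_iff]
  intro hunit
  obtain ⟨T, hT⟩ := hunit.exists_right_inv
  set i₀ : Fin (s 0) := ⟨0, hs 0⟩ with hi₀
  set d : L2 s := lp.single (E := fun _ : Vtx s => ℂ) 2 ⟨0, i₀⟩ (1 : ℂ) with hd
  set u : L2 s := T d with hu
  have h1 : (E : ℂ) • u - H u = d := by
    have := congrArg (fun A : L2 s →L[ℂ] L2 s => A d) hT
    rw [Algebra.algebraMap_eq_smul_one] at this
    rw [Complex.coe_smul]
    exact this
  have h2 : ∀ x, (E : ℂ) * u x - H u x = d x := by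
    intro x
    rw [← h1, lp.coeFn_sub, lp.coeFn_smul]
    rfl
  have hP := Psi_zero hH hs hl hv hE1 hE2 u (fun n i => by
    have h3 := h2 ⟨n + 1, i⟩
    have h4 : d ⟨n + 1, i⟩ = 0 := by
      rw [hd, lp.single_apply, Pi.single_eq_of_ne]
      intro h
      have := congrArg Sigma.fst h
      simp at this
    rw [h4] at h3
    linear_combination -h3)
  have h5 : ∀ i : Fin (s 0), ((E - lam * v ⟨0, i⟩ : ℝ) : ℂ) * u ⟨0, i⟩ = d ⟨0, i⟩ := by
    intro i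
    have h6 := apply_zero hH u i
    rw [hP] at h6
    rw [← h2, h6]
    push_cast
    ring
  have hne : ∀ i : Fin (s 0), ((E - lam * v ⟨0, i⟩ : ℝ) : ℂ) ≠ 0 := fun i => by
    exact_mod_cast (inv_quadratic E lam _ hE1 hE2 hl (hv.1 ⟨0, i⟩)).1
  have h7 : ∑ i : Fin (s 0), u ⟨0, i⟩ = u ⟨0, i₀⟩ := by
    apply Finset.sum_eq_single i₀
    · intro i _ hi
      have h8 := h5 i
      have h9 : d ⟨0, i⟩ = 0 := by
        rw [hd, lp.single_apply, Pi.single_eq_of_ne]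
        intro h
        exact hi (by simpa using h)
      rw [h9] at h8
      exact (mul_eq_zero.mp h8).resolve_left (hne i)
    · simp
  have h10 := hP 0
  unfold Psi at h10
  rw [h7, div_eq_zero_iff] at h10
  have hsq : ((√(s 0 : ℝ) : ℝ) : ℂ) ≠ 0 := by
    have : (√(s 0 : ℝ)) ≠ 0 := by
      rw [Real.sqrt_ne_zero (Nat.cast_nonneg _)]; exact_mod_cast (hs 0).ne'
    exact_mod_cast this
  have h11 := h5 i₀
  rw [h10.resolve_right hsq, hd, lp.single_apply, Pi.single_eq_same] at h11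
  simp at h11

theorem good_not_purePoint (hs : ∀ n, 0 < s n) {lam : ℝ} (hl : 1 ≤ lam) {v : Vtx s → ℝ}
    (hv : Good s v) : ∃ H : L2 s →L[ℂ] L2 s, IsAnderson s lam v H ∧ IsSelfAdjoint H ∧
      ¬ PurePointIn H (1 / 4) (1 / 2) := by
  obtain ⟨H, hH, hsa⟩ := exists_anderson lam v (fun x => by
    rcases hv.1 x with h | h | h <;> simp [h])
  refine ⟨H, hH, hsa, not_purePoint H hsa (e₀ := 3 / 8) (by norm_num) (by norm_num)
    (mem_spectrum hH hs hl hv (by norm_num) (by norm_num)) ?_⟩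
  intro e he u hu
  exact no_eigen hH hs hl hv he.1 he.2 u hu

end Pool.Agent.H524Z.Antitree
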