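import Pool.Agent.H524Z.Antitree.Defs

set_option autoImplicit false

open scoped InnerProductSpace ENNReal
open Filter Topology

namespace Pool.Agent.H524Z.Antitree

variable {s : ℕ → ℕ}

/-- normalized shell sum -/
noncomputable def Psi (u : Vtx s → ℂ) (n : ℕ) : ℂ :=
  (∑ i : Fin (s n), u ⟨n, i⟩) / (√(s n : ℝ) : ℝ)

/-- upward weights -/
noncomputable def wUp (s : ℕ → ℕ) (x y : Vtx s) : ℝ :=
  if y.1 = x.1 + 1 then 1 / √((s x.1 : ℝ) * (s y.1 : ℝ)) else 0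

theorem weight_eq (x y : Vtx s) : weight s x y = wUp s x y + wUp s y x := by
  unfold weight wUp
  by_cases h1 : y.1 = x.1 + 1
  · have h2 : ¬ x.1 = y.1 + 1 := by omega
    rw [if_pos (Or.inl h1), if_pos h1, if_neg h2, add_zero]
  · by_cases h2 : x.1 = y.1 + 1
    · rw [if_pos (Or.inr h2), if_neg h1, if_pos h2, zero_add, mul_comm]
    · rw [if_neg (by tauto), if_neg h1, if_neg h2, add_zero]

theorem hasSum_shell (m : ℕ) (g : Vtx s → ℂ) :
    HasSum (fun y : Vtx s => if y.1 = m then g y else 0) (∑ i : Fin (s m), g ⟨m, i⟩) := by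
  have h := hasSum_sum_of_ne_finset_zero (L := SummationFilter.unconditional (Vtx s))
    (f := fun y : Vtx s => if y.1 = m then g y else 0)
    (s := (Finset.univ : Finset (Fin (s m))).map (Function.Embedding.sigmaMk m)) (by
      rintro ⟨n, i⟩ hy
      by_cases hn : n = m
      · subst hn
        exact absurd (Finset.mem_map.mpr ⟨i, Finset.mem_univ _, rfl⟩) hy
      · simp [hn])
  simpa [Finset.sum_map] using h

theorem hasSum_up (u : Vtx s → ℂ) (x : Vtx s) :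
    HasSum (fun y : Vtx s => (wUp s x y : ℂ) * u y) (Psi u (x.1 + 1) / (√(s x.1 : ℝ) : ℝ)) := by
  have h := hasSum_shell (x.1 + 1)
    (fun y : Vtx s => ((1 / √((s x.1 : ℝ) * (s y.1 : ℝ)) : ℝ) : ℂ) * u y)
  convert h using 1
  · funext y
    unfold wUp
    split_ifs <;> simp
  · unfold Psi
    dsimp only
    rw [← Finset.mul_sum, Real.sqrt_mul (Nat.cast_nonneg _)]
    push_cast
    ring

theorem hasSum_down_zero (u : Vtx s → ℂ) (i : Fin (s 0)) :
    HasSum (fun y : Vtx s => (wUp s y ⟨0, i⟩ : ℂ) * u y) 0 := by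
  convert hasSum_zero using 2 with y
  simp [wUp]

theorem hasSum_down_succ (u : Vtx s → ℂ) (n : ℕ) (i : Fin (s (n + 1))) :
    HasSum (fun y : Vtx s => (wUp s y ⟨n + 1, i⟩ : ℂ) * u y)
      (Psi u n / (√(s (n + 1) : ℝ) : ℝ)) := by
  have h := hasSum_shell n
    (fun y : Vtx s => ((1 / √((s y.1 : ℝ) * (s (n + 1) : ℝ)) : ℝ) : ℂ) * u y)
  convert h using 1
  · funext y
    unfold wUp
    by_cases hy : y.1 = n
    · rw [if_pos (by simp [hy]), if_pos hy]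
    · rw [if_neg (by simpa using fun h => hy h.symm), if_neg hy]
      simp
  · unfold Psi
    dsimp only
    rw [← Finset.mul_sum, Real.sqrt_mul (Nat.cast_nonneg _)]
    push_cast
    ring

theorem summable_down (u : Vtx s → ℂ) (x : Vtx s) :
    Summable (fun y : Vtx s => (wUp s y x : ℂ) * u y) := by
  obtain ⟨n, i⟩ := x
  cases n with
  | zero => exact (hasSum_down_zero u i).summable
  | succ n => exact (hasSum_down_succ u n i).summable

theorem tsum_weight (u : Vtx s → ℂ) (x : Vtx s) :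
    (∑' y : Vtx s, (weight s x y : ℂ) * u y) =
      Psi u (x.1 + 1) / (√(s x.1 : ℝ) : ℝ) + ∑' y : Vtx s, (wUp s y x : ℂ) * u y := by
  rw [← (hasSum_up u x).tsum_eq, ← Summable.tsum_add (hasSum_up u x).summable (summable_down u x)]
  congr 1
  funext y
  rw [weight_eq]
  push_cast
  ring

theorem hasSum_sq (u : L2 s) : HasSum (fun x : Vtx s => ‖u x‖ ^ 2) (‖u‖ ^ 2) := by
  have := lp.hasSum_norm (p := 2) (by norm_num) u
  simpa using this

theorem hasSum_shell_sq (u : L2 s) :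
    HasSum (fun n : ℕ => ∑ i : Fin (s n), ‖u ⟨n, i⟩‖ ^ 2) (‖u‖ ^ 2) :=
  (hasSum_sq u).sigma (fun _ => hasSum_fintype _)

theorem norm_Psi_sq_le (u : Vtx s → ℂ) (n : ℕ) :
    ‖Psi u n‖ ^ 2 ≤ ∑ i : Fin (s n), ‖u ⟨n, i⟩‖ ^ 2 := by
  unfold Psi
  rw [norm_div, div_pow, Complex.norm_real, Real.norm_of_nonneg (Real.sqrt_nonneg _),
    Real.sq_sqrt (Nat.cast_nonneg _)]
  have h1 : ‖∑ i : Fin (s n), u ⟨n, i⟩‖ ^ 2 ≤ (s n : ℝ) * ∑ i : Fin (s n), ‖u ⟨n, i⟩‖ ^ 2 := by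
    have h2 := sq_sum_le_card_mul_sum_sq (s := (Finset.univ : Finset (Fin (s n))))
      (f := fun i => ‖u ⟨n, i⟩‖)
    simp only [Finset.card_univ, Fintype.card_fin] at h2
    refine le_trans ?_ h2
    exact pow_le_pow_left₀ (norm_nonneg _) (norm_sum_le _ _) 2
  apply div_le_of_le_mul₀ (Nat.cast_nonneg _) (by positivity)
  rw [mul_comm]
  exact h1

theorem tendsto_Psi (u : L2 s) : Tendsto (Psi (s := s) u) atTop (𝓝 0) := by
  have h1 := (hasSum_shell_sq u).summable.tendsto_atTop_zero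
  have h2 : Tendsto (fun n => ‖Psi (s := s) u n‖ ^ 2) atTop (𝓝 0) :=
    squeeze_zero (fun n => by positivity) (fun n => norm_Psi_sq_le u n) h1
  rw [tendsto_zero_iff_norm_tendsto_zero]
  have h3 := h2.sqrt
  simpa using h3

theorem up_bound (u : L2 s) :
    Summable (fun x : Vtx s => ‖Psi (s := s) u (x.1 + 1) / (√(s x.1 : ℝ) : ℝ)‖ ^ 2) ∧
    ∑' x : Vtx s, ‖Psi (s := s) u (x.1 + 1) / (√(s x.1 : ℝ) : ℝ)‖ ^ 2 ≤ ‖u‖ ^ 2 := by
  have hw := hasSum_shell_sq u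
  have hw1 : Summable (fun n : ℕ => ∑ i : Fin (s (n + 1)), ‖u ⟨n + 1, i⟩‖ ^ 2) :=
    (summable_nat_add_iff (f := fun n : ℕ => ∑ i : Fin (s n), ‖u ⟨n, i⟩‖ ^ 2) 1).mpr hw.summable
  have hle : ∀ n : ℕ, ∑' i : Fin (s n),
      ‖Psi (s := s) u ((⟨n, i⟩ : Vtx s).1 + 1) / (√(s (⟨n, i⟩ : Vtx s).1 : ℝ) : ℝ)‖ ^ 2 ≤
      ∑ i : Fin (s (n + 1)), ‖u ⟨n + 1, i⟩‖ ^ 2 := by
    intro n
    refine le_trans ?_ (norm_Psi_sq_le u (n + 1))
    rw [tsum_fintype]
    simp only [Finset.sum_const, Finset.card_univ, Fintype.card_fin, nsmul_eq_mul]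
    rw [norm_div, div_pow, Complex.norm_real, Real.norm_of_nonneg (Real.sqrt_nonneg _),
      Real.sq_sqrt (Nat.cast_nonneg _)]
    by_cases h : (s n : ℝ) = 0
    · rw [h]; simp
    · rw [mul_div_cancel₀ _ h]
  have hs2 : Summable (fun n : ℕ => ∑' i : Fin (s n),
      ‖Psi (s := s) u ((⟨n, i⟩ : Vtx s).1 + 1) / (√(s (⟨n, i⟩ : Vtx s).1 : ℝ) : ℝ)‖ ^ 2) :=
    Summable.of_nonneg_of_le (fun n => tsum_nonneg fun i => by positivity) hle hw1
  have hs : Summable (fun x : Vtx s => ‖Psi (s := s) u (x.1 + 1) / (√(s x.1 : ℝ) : ℝ)‖ ^ 2) := by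
    rw [summable_sigma_of_nonneg (fun x => by positivity)]
    exact ⟨fun n => (hasSum_fintype _).summable, hs2⟩
  refine ⟨hs, ?_⟩
  rw [hs.tsum_sigma]
  refine le_trans (hs2.tsum_le_tsum hle hw1) ?_
  rw [← hw.tsum_eq, hw.summable.tsum_eq_zero_add]
  have : 0 ≤ ∑ i : Fin (s 0), ‖u ⟨0, i⟩‖ ^ 2 := by positivity
  linarith

/-- the function `B u` -/
noncomputable def Bfun (c : Vtx s → ℝ) (u : Vtx s → ℂ) (x : Vtx s) : ℂ :=
  Psi u (x.1 + 1) / (√(s x.1 : ℝ) : ℝ) + (c x : ℂ) * u x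

theorem Bfun_bound (c : Vtx s → ℝ) (C : ℝ) (hc : ∀ x, |c x| ≤ C) (u : L2 s) :
    Summable (fun x : Vtx s => ‖Bfun c u x‖ ^ 2) ∧
    ∑' x : Vtx s, ‖Bfun c u x‖ ^ 2 ≤ (2 + 2 * C ^ 2) * ‖u‖ ^ 2 := by
  obtain ⟨h1, h2⟩ := up_bound u
  have h3 := hasSum_sq u
  have hle : ∀ x : Vtx s, ‖Bfun c u x‖ ^ 2 ≤
      2 * ‖Psi (s := s) u (x.1 + 1) / (√(s x.1 : ℝ) : ℝ)‖ ^ 2 + 2 * C ^ 2 * ‖u x‖ ^ 2 := by
    intro x
    unfold Bfun
    have e1 := norm_add_le (Psi (s := s) u (x.1 + 1) / (√(s x.1 : ℝ) : ℝ)) ((c x : ℂ) * u x)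
    have e2 : ‖(c x : ℂ) * u x‖ ≤ C * ‖u x‖ := by
      rw [norm_mul, Complex.norm_real, Real.norm_eq_abs]
      exact mul_le_mul_of_nonneg_right (hc x) (norm_nonneg _)
    have e3 := pow_le_pow_left₀ (norm_nonneg _) (le_trans e1 (add_le_add_right e2 _)) 2
    nlinarith [sq_nonneg (‖Psi (s := s) u (x.1 + 1) / (√(s x.1 : ℝ) : ℝ)‖ - C * ‖u x‖)]
  have h4 := (h1.hasSum.mul_left 2).add (h3.mul_left (2 * C ^ 2))
  have h5 : Summable (fun x : Vtx s => ‖Bfun c u x‖ ^ 2) :=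
    Summable.of_nonneg_of_le (fun x => by positivity) hle h4.summable
  refine ⟨h5, le_trans (hasSum_le hle h5.hasSum h4) ?_⟩
  nlinarith

theorem Bfun_mem (c : Vtx s → ℝ) (C : ℝ) (hc : ∀ x, |c x| ≤ C) (u : L2 s) :
    Memℓp (E := fun _ : Vtx s => ℂ) (Bfun c u) 2 := by
  apply memℓp_gen
  simpa using (Bfun_bound c C hc u).1

/-- the linear map `B` -/
noncomputable def Blin (c : Vtx s → ℝ) (C : ℝ) (hc : ∀ x, |c x| ≤ C) : L2 s →ₗ[ℂ] L2 s where
  toFun u := ⟨Bfun c u, Bfun_mem c C hc u⟩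
  map_add' u w := by
    ext x
    simp only [Bfun, Psi, lp.coeFn_add, Pi.add_apply, Finset.sum_add_distrib]
    ring
  map_smul' a u := by
    ext x
    simp only [Bfun, Psi, lp.coeFn_smul, Pi.smul_apply, smul_eq_mul, RingHom.id_apply,
      ← Finset.mul_sum]
    ring

/-- the bounded operator `B` -/
noncomputable def Bop (c : Vtx s → ℝ) (C : ℝ) (hc : ∀ x, |c x| ≤ C) : L2 s →L[ℂ] L2 s :=
  (Blin c C hc).mkContinuous √(2 + 2 * C ^ 2) (fun u => by
    apply lp.norm_le_of_tsum_le (p := 2) (by norm_num) (by positivity)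
    have := (Bfun_bound c C hc u).2
    simp only [ENNReal.toReal_ofNat, Real.rpow_ofNat]
    rw [mul_pow, Real.sq_sqrt (by positivity)]
    exact this)

theorem Bop_apply (c : Vtx s → ℝ) (C : ℝ) (hc : ∀ x, |c x| ≤ C) (u : L2 s) (x : Vtx s) :
    Bop c C hc u x = Bfun c u x := rfl

open Classical in
theorem Bfun_single (c : Vtx s → ℝ) (x y : Vtx s) :
    Bfun c (lp.single (E := fun _ : Vtx s => ℂ) 2 x (1 : ℂ)) y =
      (wUp s y x : ℂ) + if y = x then (c x : ℂ) else 0 := by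
  unfold Bfun
  rw [← (hasSum_up _ y).tsum_eq, tsum_eq_single x]
  · by_cases h : y = x
    · subst h
      simp
    · simp [h, lp.single_apply]
  · intro z hz
    simp [lp.single_apply, hz]

theorem adjoint_apply (c : Vtx s → ℝ) (C : ℝ) (hc : ∀ x, |c x| ≤ C) (u : L2 s) (x : Vtx s) :
    (ContinuousLinearMap.adjoint (Bop c C hc)) u x =
      (∑' y : Vtx s, (wUp s y x : ℂ) * u y) + (c x : ℂ) * u x := by
  classical
  have h1 : (ContinuousLinearMap.adjoint (Bop c C hc)) u x =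
      ⟪lp.single (E := fun _ : Vtx s => ℂ) 2 x (1 : ℂ),
        (ContinuousLinearMap.adjoint (Bop c C hc)) u⟫_ℂ := by
    rw [lp.inner_single_left]
    simp
  rw [h1, ContinuousLinearMap.adjoint_inner_right, lp.inner_eq_tsum]
  have h2 : HasSum (fun y : Vtx s => if y = x then (c x : ℂ) * u x else 0) ((c x : ℂ) * u x) :=
    hasSum_ite_eq x _
  rw [← ((summable_down u x).hasSum.add h2).tsum_eq]
  congr 1
  funext y
  rw [Bop_apply, Bfun_single]
  by_cases h : y = x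
  · subst h
    simp
    ring
  · simp [h]
    ring

theorem exists_anderson (lam : ℝ) (v : Vtx s → ℝ) (hv : ∀ x, |v x| ≤ 1) :
    ∃ H : L2 s →L[ℂ] L2 s, IsAnderson s lam v H ∧ IsSelfAdjoint H := by
  have hc : ∀ x, |lam * v x / 2| ≤ |lam| := by
    intro x
    rw [abs_div, abs_mul, abs_two]
    nlinarith [hv x, abs_nonneg lam, abs_nonneg (v x)]
  refine ⟨Bop _ _ hc + ContinuousLinearMap.adjoint (Bop _ _ hc), ?_, ?_⟩
  · intro ψ x
    rw [add_apply, lp.coeFn_add, Pi.add_apply, adjoint_apply, Bop_apply,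
      tsum_weight]
    unfold Bfun
    push_cast
    ring
  · exact IsSelfAdjoint.add_star_self _

end Pool.Agent.H524Z.Antitree
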