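import Pool.Agent.H524Z.Antitree.Det

set_option autoImplicit false

open Filter Topology MeasureTheory ProbabilityTheory
open scoped ENNReal

namespace Pool.Agent.H524Z.Antitree

/-- the single site law -/
noncomputable def law : Measure ℝ :=
  (2⁻¹ : ℝ≥0∞) • Measure.dirac 0 + (4⁻¹ : ℝ≥0∞) • Measure.dirac 1 +
    (4⁻¹ : ℝ≥0∞) • Measure.dirac (-1)

instance : IsProbabilityMeasure law := by
  constructor
  simp only [law, Measure.add_apply, Measure.smul_apply, measure_univ, smul_eq_mul, mul_one]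
  have h4 : (4⁻¹ : ℝ≥0∞) + 4⁻¹ = 2⁻¹ := by
    rw [show (4 : ℝ≥0∞) = 2 * 2 by norm_num, ENNReal.mul_inv (by simp) (by simp), ← add_mul,
      ENNReal.inv_two_add_inv_two, one_mul]
  rw [add_assoc, h4, ENNReal.inv_two_add_inv_two]

theorem law_ae : ∀ᵐ t ∂law, t = 0 ∨ t = 1 ∨ t = -1 := by
  have hm : MeasurableSet {t : ℝ | t = 0 ∨ t = 1 ∨ t = -1} := by
    have : {t : ℝ | t = 0 ∨ t = 1 ∨ t = -1} = {0, 1, -1} := by ext t; simp
    rw [this]
    exact (Set.toFinite _).measurableSet
  unfold law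
  rw [ae_add_measure_iff, ae_add_measure_iff]
  refine ⟨⟨?_, ?_⟩, ?_⟩ <;> apply Measure.ae_smul_measure <;> rw [ae_dirac_iff hm] <;> simp

theorem law_integral (f : ℝ → ℝ) : ∫ t, f t ∂law = f 0 / 2 + f 1 / 4 + f (-1) / 4 := by
  have hi : ∀ (c : ℝ≥0∞) (a : ℝ), c ≠ ∞ → Integrable f (c • Measure.dirac a) :=
    fun c a hc => (integrable_dirac (by simp)).smul_measure hc
  unfold law
  rw [integral_add_measure ((hi _ _ (by simp)).add_measure (hi _ _ (by simp))) (hi _ _ (by simp)),
    integral_add_measure (hi _ _ (by simp)) (hi _ _ (by simp))]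
  simp only [integral_smul_measure, integral_dirac, smul_eq_mul]
  simp
  ring

theorem law_Icc : ∀ᵐ t ∂law, t ∈ Set.Icc (-1 : ℝ) 1 := by
  filter_upwards [law_ae] with t ht
  rcases ht with rfl | rfl | rfl <;> norm_num

theorem law_variance : variance id law = 1 / 2 := by
  rw [variance_eq_sub (memLp_of_bounded (f := id) law_Icc measurable_id.aestronglyMeasurable 2)]
  have h1 := law_integral (fun t => t ^ 2)
  have h2 := law_integral (fun t => t)
  simp only [Pi.pow_apply, id]
  rw [h1, h2]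
  norm_num

variable {s : ℕ → ℕ}

/-- the product measure -/
noncomputable abbrev mu (s : ℕ → ℕ) : Measure (Vtx s → ℝ) :=
  Measure.infinitePi (fun _ : Vtx s => law)

theorem cheb (f : ℝ → ℝ) (hf : Measurable f) (hb : ∀ᵐ t ∂law, f t ∈ Set.Icc (-1 : ℝ) 1) (n : ℕ)
    (hs : 0 < s n) {ε : ℝ} (hε : 0 < ε) :
    mu s {v | ε < |(∑ i : Fin (s n), f (v ⟨n, i⟩)) / s n - ∫ t, f t ∂law|} ≤
      ENNReal.ofReal (1 / (s n * ε ^ 2)) := by
  set X : Fin (s n) → (Vtx s → ℝ) → ℝ := fun i v => f (v ⟨n, i⟩) with hX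
  have hmp : ∀ x : Vtx s, MeasurePreserving (fun v : Vtx s → ℝ => v x) (mu s) law :=
    fun x => measurePreserving_eval_infinitePi (fun _ : Vtx s => law) x
  have hae : ∀ i, ∀ᵐ v ∂(mu s), X i v ∈ Set.Icc (-1 : ℝ) 1 :=
    fun i => (hmp ⟨n, i⟩).quasiMeasurePreserving.ae hb
  have hmeas : ∀ i, Measurable (X i) := fun i => hf.comp (measurable_pi_apply _)
  have hL : ∀ i, MemLp (X i) 2 (mu s) :=
    fun i => memLp_of_bounded (hae i) (hmeas i).aestronglyMeasurable 2
  have hind : iIndepFun (fun (x : Vtx s) (v : Vtx s → ℝ) => f (v x)) (mu s) :=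
    iIndepFun_infinitePi (X := fun _ => f) (fun _ => hf)
  have hvar : variance (∑ i, X i) (mu s) ≤ s n := by
    rw [IndepFun.variance_sum (fun i _ => hL i)]
    · have : ∀ i, variance (X i) (mu s) ≤ 1 := by
        intro i
        have := variance_le_sq_of_bounded (hae i) (hmeas i).aemeasurable
        norm_num at this
        exact this
      calc ∑ i, variance (X i) (mu s) ≤ ∑ _i : Fin (s n), (1 : ℝ) :=
            Finset.sum_le_sum fun i _ => this i
        _ = s n := by simp
    · intro i _ j _ hij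
      exact hind.indepFun (i := ⟨n, i⟩) (j := ⟨n, j⟩) (fun h => hij (by simpa using h))
  have hmean : ∫ v, (∑ i, X i) v ∂(mu s) = s n * ∫ t, f t ∂law := by
    simp only [Finset.sum_apply]
    rw [integral_finset_sum _ (fun i _ => (hL i).integrable (by norm_num))]
    have : ∀ i, ∫ v, X i v ∂(mu s) = ∫ t, f t ∂law := by
      intro i
      rw [← (hmp ⟨n, i⟩).map_eq, integral_map (measurable_pi_apply _).aemeasurable
        hf.aestronglyMeasurable]
    simp [this]
  have hsn : (0 : ℝ) < s n := by exact_mod_cast hs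
  have hch := meas_ge_le_variance_div_sq (μ := mu s) (X := ∑ i, X i)
    (memLp_finset_sum' _ fun i _ => hL i) (c := s n * ε) (by positivity)
  refine le_trans (measure_mono ?_) (le_trans hch (ENNReal.ofReal_le_ofReal ?_))
  · intro v hv
    simp only [Set.mem_setOf_eq] at hv ⊢
    rw [hmean, Finset.sum_apply]
    have : ∑ i, X i v - s n * ∫ t, f t ∂law =
        s n * ((∑ i : Fin (s n), f (v ⟨n, i⟩)) / s n - ∫ t, f t ∂law) := by
      simp only [hX]
      field_simp
    rw [this, abs_mul, abs_of_pos hsn]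
    exact mul_le_mul_of_nonneg_left hv.le hsn.le
  · rw [div_le_div_iff₀ (by positivity) (by positivity)]
    have : 0 < (s n : ℝ) * ε ^ 2 := by positivity
    nlinarith

/-- the shell sizes -/
def sz (n : ℕ) : ℕ := 10 ^ 7 * 8 ^ n

theorem sz_pos (n : ℕ) : 0 < sz n := by unfold sz; positivity

theorem bad_le : mu sz {v | ¬ Good sz v} ≤ ENNReal.ofReal (2 / 5) := by
  set B : (ℝ → ℝ) → ℕ → Set (Vtx sz → ℝ) := fun f n =>
    {v | (1 / 2) ^ n / 1000 < |(∑ i : Fin (sz n), f (v ⟨n, i⟩)) / sz n - ∫ t, f t ∂law|} with hB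
  have hBle : ∀ f : ℝ → ℝ, Measurable f → (∀ᵐ t ∂law, f t ∈ Set.Icc (-1 : ℝ) 1) →
      mu sz (⋃ n, B f n) ≤ ENNReal.ofReal (1 / 5) := by
    intro f hf hb
    refine le_trans (measure_iUnion_le _) ?_
    have h1 : ∀ n, mu sz (B f n) ≤ ENNReal.ofReal (1 / 10 * (1 / 2) ^ n) := by
      intro n
      refine le_trans (cheb f hf hb n (sz_pos n) (by positivity)) (le_of_eq ?_)
      congr 1
      unfold sz
      push_cast
      rw [show (8 : ℝ) = 2 ^ 3 by norm_num, ← pow_mul, mul_comm 3 n, pow_mul, one_div_pow]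
      field_simp
      norm_num
    refine le_trans (ENNReal.tsum_le_tsum h1) (le_of_eq ?_)
    rw [← ENNReal.ofReal_tsum_of_nonneg (fun n => by positivity)
      (summable_geometric_two.mul_left _), tsum_mul_left, tsum_geometric_two]
    norm_num
  have hN : mu sz {v | ¬ ∀ x, v x = 0 ∨ v x = 1 ∨ v x = -1} = 0 := by
    have : ∀ᵐ v ∂(mu sz), ∀ x, v x = 0 ∨ v x = 1 ∨ v x = -1 := by
      rw [ae_all_iff]
      intro x
      exact (measurePreserving_eval_infinitePi (fun _ : Vtx sz => law) x).quasiMeasurePreserving.ae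
        law_ae
    exact ae_iff.mp this
  have hsub : {v | ¬ Good sz v} ⊆ {v | ¬ ∀ x, v x = 0 ∨ v x = 1 ∨ v x = -1} ∪
      ((⋃ n, B (fun t => t) n) ∪ ⋃ n, B (fun t => t ^ 2) n) := by
    intro v hv
    by_contra h
    apply hv
    simp only [Set.mem_union, Set.mem_iUnion, not_or, not_exists, hB, Set.mem_setOf_eq, not_not,
      not_lt] at h
    obtain ⟨h1, h2, h3⟩ := h
    refine ⟨h1, fun n => ⟨?_, ?_⟩⟩
    · have := h2 n
      rw [law_integral] at this
      norm_num at this ⊢
      exact this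
    · have := h3 n
      rw [law_integral] at this
      norm_num at this ⊢
      exact this
  refine le_trans (measure_mono hsub) (le_trans (measure_union_le _ _) ?_)
  rw [hN, zero_add]
  refine le_trans (measure_union_le _ _) ?_
  have e1 := hBle (fun t => t) measurable_id law_Icc
  have e2 := hBle (fun t => t ^ 2) (by fun_prop) (by
    filter_upwards [law_ae] with t ht
    rcases ht with rfl | rfl | rfl <;> norm_num)
  refine le_trans (add_le_add e1 e2) (le_of_eq ?_)
  rw [← ENNReal.ofReal_add (by norm_num) (by norm_num)]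
  norm_num

theorem exists_event : ∃ G : Set (Vtx sz → ℝ), MeasurableSet G ∧ 0 < mu sz G ∧
    ∀ v ∈ G, Good sz v := by
  refine ⟨(toMeasurable (mu sz) {v | ¬ Good sz v})ᶜ, (measurableSet_toMeasurable _ _).compl, ?_, ?_⟩
  · rw [prob_compl_eq_one_sub (measurableSet_toMeasurable _ _), measure_toMeasurable,
      tsub_pos_iff_lt]
    refine lt_of_le_of_lt bad_le ?_
    rw [ENNReal.ofReal_lt_one]
    norm_num
  · intro v hv
    by_contra h
    exact hv (subset_toMeasurable _ _ h)

end Pool.Agent.H524Z.Antitree
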